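import Mathlib

set_option autoImplicit false

/-!
MP_5f3c9b_co, all r: the numerical lemmas of section 7 of helper72's proof.

Notation: `D = D_w`, `X = X_w`, `M = D - X`, `Y = Y_w`, `e = eps_w`, `r = rho`,
`rm = max(-rho,0)`, `m = mm`, `Z = e - r - m`, `J = k + 1 - D`,
`q = m + (1 - X) D - Y - r`.
-/

namespace Pool.Agent.Helper85.LS

/-- The constraints on the integers of the main lemma. -/
structure Num (k D X Y e r rm m : ℤ) : Prop where
  hk : 2 ≤ k
  hX : X ≤ 1
  hD : D = Y + e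
  hrm : 0 ≤ rm
  hY : 1 + rm ≤ Y
  he : 1 ≤ e
  hm : 1 ≤ m
  hZ : 1 + rm ≤ e - r - m
  hc : (1 ≤ r ∧ rm = 0 ∧ D - X ≤ k) ∨ (r ≤ 0 ∧ rm = -r ∧ D - X ≤ k - 1)
  hq : k + 1 - D ≤ m + (1 - X) * D - Y - r

variable {k D X Y e r rm m : ℤ}

theorem Num.hDk (h : Num k D X Y e r rm m) : D ≤ k + 1 := by
  have := h.hX
  rcases h.hc with ⟨_, _, h3⟩ | ⟨_, _, h3⟩ <;> linarith

/-- `tau Z - rm <= tau (e-1)`. -/
theorem Num.hz (h : Num k D X Y e r rm m) :
    Y * (e - r - m) - rm * D ≤ Y * (e - 1) := by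
  have hY := h.hY
  have hrm := h.hrm
  have hm := h.hm
  have he := h.he
  have hD := h.hD
  subst hD
  rcases h.hc with ⟨h1, h2, h3⟩ | ⟨h1, h2, h3⟩
  · subst h2; nlinarith
  · have : r = -rm := by linarith
    subst this
    nlinarith [mul_nonneg hrm (by linarith : (0:ℤ) ≤ e), mul_nonneg (by linarith : (0:ℤ) ≤ Y)
      (by linarith : (0:ℤ) ≤ m - 1)]

theorem Num.c3 (h : Num k D X Y e r rm m) :
    (k + 1) * (Y * (e - r - m) - rm * D) ≤ k * D * e := by
  have hz := h.hz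
  have hk := h.hk
  have hDk := h.hDk
  have he := h.he
  have hY := h.hY
  have hrm := h.hrm
  have h1 : (k + 1) * (Y * (e - r - m) - rm * D) ≤ (k + 1) * (Y * (e - 1)) :=
    mul_le_mul_of_nonneg_left hz (by linarith)
  have hYe : Y = D - e := by linarith [h.hD]
  have hDe : e + 1 ≤ D := by linarith
  have h2 : 0 ≤ (k + 1 - D) * (D + e ^ 2 - e) :=
    mul_nonneg (by linarith) (by nlinarith)
  have h3 : 0 ≤ D * (D + e ^ 2 - 2 * e) := mul_nonneg (by linarith) (by nlinarith)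
  have h4 : k * D * e - (k + 1) * (Y * (e - 1))
      = (k + 1 - D) * (D + e ^ 2 - e) + D * (D + e ^ 2 - 2 * e) := by
    rw [hYe]; ring
  linarith

theorem Num.far1 (h : Num k D X Y e r rm m) {Du : ℤ} (hDu : D - X + 2 ≤ 2 * Du) :
    (k + 1) * (Y * (e - r - m) - rm * D) ≤ (k + 1) * (Y * Du) + k * (Du - 1) * D := by
  have hz := h.hz
  have hk := h.hk
  have he := h.he
  have hY := h.hY
  have hrm := h.hrm
  have hX := h.hX
  have h1 : (k + 1) * (Y * (e - r - m) - rm * D) ≤ (k + 1) * (Y * (e - 1)) :=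
    mul_le_mul_of_nonneg_left hz (by linarith)
  have hDe : e = D - Y := by linarith [h.hD]
  have hD2 : 2 ≤ D := by linarith
  have hY0 : 0 < Y := by linarith
  have hD0 : 0 < D := by linarith
  have h2 : 0 ≤ ((k + 1) * Y + k * D) * (2 * Du - (D + 1)) :=
    mul_nonneg (by positivity) (by linarith)
  have h3 : 0 ≤ (k + 1) * (4 * Y - (D - 3)) ^ 2 := by positivity
  have h4 : 0 ≤ 8 * (k * ((D - 1) * D)) - (k + 1) * (D - 3) ^ 2 := by
    have h5 : (D - 3) ^ 2 ≤ 4 * ((D - 1) * D) := by nlinarith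
    have h6 : 0 ≤ (D - 1) * D := mul_nonneg (by linarith) (by linarith)
    nlinarith [mul_nonneg (by linarith : (0:ℤ) ≤ k - 1) h6]
  rw [hDe] at h1 ⊢
  nlinarith

theorem Num.far2 (h : Num k D X Y e r rm m) {Du : ℤ} (hDu : D - X + 1 ≤ Du) :
    (k + 1) * (Y * (e - r - m) - rm * D) ≤ (k + 1) * (Y * Du) + k * (Du - 2) * D := by
  have hz := h.hz
  have hk := h.hk
  have he := h.he
  have hY := h.hY
  have hrm := h.hrm
  have hX := h.hX
  have h1 : (k + 1) * (Y * (e - r - m) - rm * D) ≤ (k + 1) * (Y * (e - 1)) :=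
    mul_le_mul_of_nonneg_left hz (by linarith)
  have hDe : e = D - Y := by linarith [h.hD]
  have hD2 : 2 ≤ D := by linarith
  have h2 : (k + 1) * (Y * (e - 1)) ≤ (k + 1) * (Y * Du) :=
    mul_le_mul_of_nonneg_left (mul_le_mul_of_nonneg_left (by linarith) (by linarith))
      (by linarith)
  have h3 : 0 ≤ k * (Du - 2) * D :=
    mul_nonneg (mul_nonneg (by linarith) (by linarith)) (by linarith)
  linarith

theorem Num.xm1 (h : Num k D X Y e r rm m)
    (hp : 0 < k * X * Y * D + (2 * k + 3) * (Y * (e - r - m)) - (3 * k + 3) * rm * D) :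
    -1 ≤ X := by
  by_contra hX
  push Not at hX
  have hz := h.hz
  have hk := h.hk
  have he := h.he
  have hY := h.hY
  have hrm := h.hrm
  have hD := h.hD
  have hDk : D ≤ k + X := by
    rcases h.hc with ⟨_, _, h3⟩ | ⟨_, _, h3⟩ <;> linarith
  have hY0 : 0 < Y := by linarith
  have hD0 : 0 < D := by linarith
  have h1 : (2 * k + 3) * (Y * (e - r - m) - rm * D) ≤ (2 * k + 3) * (Y * (e - 1)) :=
    mul_le_mul_of_nonneg_left hz (by linarith)
  have h2 : 0 ≤ k * (rm * D) := by positivity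
  have h3 : 0 ≤ (k * (Y * D)) * (-2 - X) := mul_nonneg (by positivity) (by linarith)
  have h4 : 0 ≤ 2 * k * D - (2 * k + 3) * (e - 1) := by nlinarith
  have h5 : 0 ≤ Y * (2 * k * D - (2 * k + 3) * (e - 1)) := mul_nonneg hY0.le h4
  nlinarith

/-- the inequality behind `nc4` and `h3` -/
theorem Num.aux (h : Num k D X Y e r rm m) (a : ℤ) (ha : 2 - X ≤ a) :
    k * D * (k + 1 - D) + (k * X * Y * D + (2 * k + 3) * (Y * (e - r - m))
      - (3 * k + 3) * rm * D) ≤ k * D * ((a + 1) * e + 1) := by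
  have hk := h.hk
  have he := h.he
  have hY := h.hY
  have hrm := h.hrm
  have hm := h.hm
  have hZ := h.hZ
  have hq := h.hq
  have hDk := h.hDk
  have hYe : Y = D - e := by linarith [h.hD]
  have hD0 : 0 < D := by linarith
  have hkD : 0 < k * D := by positivity
  have h1 : 0 ≤ (k * D) * (m + (1 - X) * D - Y - r - (k + 1 - D)) :=
    mul_nonneg hkD.le (by linarith)
  have h2 : 0 ≤ (k * D) * ((a - (2 - X)) * e) :=
    mul_nonneg hkD.le (mul_nonneg (by linarith) (by linarith))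
  rcases h.hc with ⟨c1, c2, c3⟩ | ⟨c1, c2, c3⟩
  · subst c2
    obtain ⟨Z, hZe⟩ : ∃ Z, Z = e - r - m := ⟨_, rfl⟩
    have hm' : m = e - r - Z := by linarith
    subst hm'
    have e1 : e - r - (e - r - Z) = Z := by ring
    rw [e1] at hZ ⊢
    have h3 : 0 ≤ (k * D) * (r - 1) := mul_nonneg hkD.le (by linarith)
    have h4 : 0 ≤ (k * D) * (e - r - 1 - Z) := mul_nonneg hkD.le (by linarith)
    have h5 : 0 ≤ Z * ((2 * k + 3) * e - 3 * D) := mul_nonneg (by linarith) (by nlinarith)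
    rw [hYe] at h1 ⊢
    nlinarith
  · have hr : r = -rm := by linarith
    subst hr
    obtain ⟨z, hze⟩ : ∃ z, z = e - m := ⟨_, rfl⟩
    have hm' : m = e - z := by linarith
    subst hm'
    have e1 : e - -rm - (e - z) = z + rm := by ring
    rw [e1] at hZ ⊢
    have h4 : 0 ≤ (k * D) * (e - 1 - z) := mul_nonneg hkD.le (by linarith)
    have h5 : 0 ≤ z * ((2 * k + 3) * e - 3 * D) := mul_nonneg (by linarith) (by nlinarith)
    have h6 : 0 ≤ (2 * k + 3) * (rm * e) := by positivity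
    rw [hYe] at h1 ⊢
    nlinarith

theorem Num.nc4 (h : Num k D X Y e r rm m) (hX : -1 ≤ X) :
    k * D * (k + 1 - D) + (k * X * Y * D + (2 * k + 3) * (Y * (e - r - m))
      - (3 * k + 3) * rm * D) ≤ k * D * (4 * e + 1) := by
  have := h.aux 3 (by linarith)
  linarith

theorem Num.h3 (h : Num k D 1 Y e r rm m) :
    k * D * (k + 1 - D) + (k * Y * D + (2 * k + 3) * (Y * (e - r - m))
      - (3 * k + 3) * rm * D) ≤ k * D * (2 * e + 1) := by
  have := h.aux 1 (by norm_num)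
  linarith

/-- Case `X = 1`, `rho >= 1`: `3 (k+1) tau Z <= k (eps - 1)`. -/
theorem Num.FV (h : Num k D 1 Y e r rm m) (hr : 1 ≤ r) (hrm0 : rm = 0) :
    3 * (k + 1) * (Y * (e - r - m)) ≤ k * (e - 1) * D := by
  have hk := h.hk
  have he := h.he
  have hY := h.hY
  have hm := h.hm
  have hZ := h.hZ
  have hq := h.hq
  have hDk := h.hDk
  subst hrm0
  obtain ⟨J, hJ⟩ : ∃ J, J = k + 1 - D := ⟨_, rfl⟩
  obtain ⟨w, hw⟩ : ∃ w, w = e - 1 := ⟨_, rfl⟩
  have hDe : D = Y + w + 1 := by linarith [h.hD]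
  have hkJ : k = D + J - 1 := by linarith
  have hJ0 : 0 ≤ J := by linarith
  have hY0 : 0 < Y := by linarith
  have hZ2 : e - r - m ≤ w - 1 - Y - J := by linarith
  have hs0 : 0 < w - 1 - Y - J := by linarith
  have h1 : Y * (e - r - m) ≤ Y * (w - 1 - Y - J) := mul_le_mul_of_nonneg_left hZ2 hY0.le
  have h2 : (D + J) * (w - 1 - Y - J) ≤ D * (w - 1 - Y) := by
    have : 0 ≤ J * (D - (w - 1 - Y)) := mul_nonneg hJ0 (by linarith)
    nlinarith
  have h3 : 3 * (k + 1) * (Y * (e - r - m)) ≤ 3 * (k + 1) * (Y * (w - 1 - Y - J)) :=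
    mul_le_mul_of_nonneg_left h1 (by linarith)
  have h4 : 3 * (k + 1) * (Y * (w - 1 - Y - J)) ≤ 3 * Y * (D * (w - 1 - Y)) := by
    have : k + 1 = D + J := by linarith
    rw [this]
    have := mul_le_mul_of_nonneg_left h2 (by linarith : (0:ℤ) ≤ 3 * Y)
    linarith
  have h5 : 3 * Y * (D * (w - 1 - Y)) ≤ (D - 1) * w * D := by
    have : 0 ≤ D * ((w - Y) ^ 2 + 2 * Y ^ 2 + 3 * Y) :=
      mul_nonneg (by linarith) (by positivity)
    rw [hDe] at this ⊢
    nlinarith
  have h6 : (D - 1) * w * D ≤ k * (e - 1) * D := by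
    have : 0 ≤ J * (w * D) := mul_nonneg hJ0 (mul_nonneg (by linarith) (by linarith))
    rw [hkJ, ← hw]
    nlinarith
  linarith

/-- Case `X = 1`, `rho <= 0`. -/
theorem Num.FU (h : Num k D 1 Y e r rm m) (hr : rm = -r) (hM : D - 1 ≤ k - 1) :
    3 * (k + 1) * (Y * (e - r - m)) - (4 * k + 3) * rm * D ≤ k * (e - 1) * D := by
  have hk := h.hk
  have he := h.he
  have hY := h.hY
  have hm := h.hm
  have hZ := h.hZ
  have hq := h.hq
  have hrm := h.hrm
  have hr' : r = -rm := by linarith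
  subst hr'
  -- u, v, t
  obtain ⟨v, hv⟩ : ∃ v, v = Y - rm := ⟨_, rfl⟩
  have hv1 : 1 ≤ v := by linarith
  have hDe : D = Y + e := h.hD
  obtain ⟨z, hz⟩ : ∃ z, z = e - m := ⟨_, rfl⟩
  have hzle : z ≤ e - 1 - v := by linarith
  have hz1 : 1 ≤ z := by linarith
  have e1 : e - -rm - m = z + rm := by linarith
  rw [e1]
  have hev : v + 2 ≤ e := by linarith
  have hY0 : 0 < Y := by linarith
  have hD0 : 0 < D := by linarith
  -- reduce to the key inequality
  have h1 : Y * z ≤ Y * (e - 1 - v) := mul_le_mul_of_nonneg_left hzle hY0.le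
  have hrmv : rm = Y - v := by linarith
  have key : 3 * (k + 1) * (Y * (e - 1 - v) - (Y - v) * e) ≤ k * (e - 1 + (Y - v)) * D := by
    have k1 : Y * (e - 1 - v) - (Y - v) * e = v * (e - Y) - Y := by ring
    rw [k1]
    have base : 0 ≤ 2 * ((e - 1) * (e + v)) - 9 * (v * (e - v - 1)) := by
      nlinarith [sq_nonneg (4 * e - 7 * v - 2), sq_nonneg (e - v), mul_nonneg (by linarith : (0:ℤ) ≤ v - 1) (by linarith : (0:ℤ) ≤ v), sq_nonneg v]
    have big : 9 * (v * (e - Y) - Y) ≤ 2 * ((e - 1 + (Y - v)) * D) := by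
      obtain ⟨t, ht⟩ : ∃ t, t = Y - v := ⟨_, rfl⟩
      have ht0 : 0 ≤ t := by linarith
      have hYt : Y = v + t := by linarith
      rw [hDe, hYt]
      nlinarith [mul_nonneg ht0 (by linarith : (0:ℤ) ≤ e), mul_nonneg ht0 (by linarith : (0:ℤ) ≤ v), mul_nonneg ht0 ht0]
    have hDD : 0 ≤ (e - 1 + (Y - v)) * D := mul_nonneg (by linarith) hD0.le
    rcases le_or_gt (v * (e - Y) - Y) 0 with hn | hp
    · have : 3 * (k + 1) * (v * (e - Y) - Y) ≤ 0 :=
        mul_nonpos_of_nonneg_of_nonpos (by linarith) hn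
      have : 0 ≤ k * ((e - 1 + (Y - v)) * D) := mul_nonneg (by linarith) hDD
      linarith
    · have a1 : 2 * (3 * (k + 1) * (v * (e - Y) - Y)) ≤ 9 * k * (v * (e - Y) - Y) := by
        nlinarith
      have a2 : k * (9 * (v * (e - Y) - Y)) ≤ k * (2 * ((e - 1 + (Y - v)) * D)) :=
        mul_le_mul_of_nonneg_left big (by linarith)
      linarith
  have h2 : 3 * (k + 1) * (Y * z) ≤ 3 * (k + 1) * (Y * (e - 1 - v)) :=
    mul_le_mul_of_nonneg_left h1 (by linarith)
  rw [hrmv]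
  rw [hDe] at key ⊢
  nlinarith

theorem Num.F (h : Num k D X Y e r rm m) :
    k * X * Y * D + 3 * (k + 1) * (Y * (e - r - m)) - (4 * k + 3) * rm * D
      ≤ k * (D - 1) * D := by
  have hk := h.hk
  have he := h.he
  have hY := h.hY
  have hrm := h.hrm
  have hD := h.hD
  have hY0 : 0 < Y := by linarith
  have hD0 : 0 < D := by linarith
  rcases eq_or_lt_of_le h.hX with hX | hX
  · subst hX
    rcases h.hc with ⟨c1, c2, _⟩ | ⟨_, c2, c3⟩
    · have := h.FV c1 c2
      subst c2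
      rw [hD] at this ⊢
      nlinarith
    · have := h.FU c2 c3
      rw [hD] at this ⊢
      nlinarith
  · have hX0 : X ≤ 0 := by linarith
    have hz := h.hz
    have hDk : D ≤ k := by
      rcases h.hc with ⟨_, _, h3⟩ | ⟨_, _, h3⟩ <;> linarith
    have h1 : 3 * (k + 1) * (Y * (e - r - m) - rm * D) ≤ 3 * (k + 1) * (Y * (e - 1)) :=
      mul_le_mul_of_nonneg_left hz (by linarith)
    have h2 : 0 ≤ k * (rm * D) := by positivity
    have h3 : 0 ≤ (k * (Y * D)) * (-X) := mul_nonneg (by positivity) (by linarith)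
    have h4 : 4 * (Y * (e - 1)) ≤ (D - 1) ^ 2 := by
      rw [hD]; nlinarith [sq_nonneg (Y - (e - 1))]
    have h5 : 3 * (k + 1) * (4 * (Y * (e - 1))) ≤ 3 * (k + 1) * (D - 1) ^ 2 :=
      mul_le_mul_of_nonneg_left h4 (by linarith)
    have h6 : 0 ≤ (D - 1) * (4 * k * D - 3 * (k + 1) * (D - 1)) :=
      mul_nonneg (by linarith) (by nlinarith)
    nlinarith

theorem Num.h1 (h : Num k D 1 Y e r rm m) :
    (2 * k + 3) * (Y * (e - r - m)) - (3 * k + 3) * rm * D ≤ k * (e - 1) * D := by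
  have hk := h.hk
  have he := h.he
  have hY := h.hY
  have hrm := h.hrm
  have hD := h.hD
  have hD0 : 0 < D := by linarith
  have hF : 3 * (k + 1) * (Y * (e - r - m)) - (4 * k + 3) * rm * D ≤ k * (e - 1) * D := by
    have := h.F
    rw [hD] at this ⊢
    nlinarith
  rcases le_or_gt (rm * D) (Y * (e - r - m)) with hc | hc
  · nlinarith [mul_nonneg (by linarith : (0:ℤ) ≤ k) (sub_nonneg.2 hc)]
  · have h1 : (2 * k + 3) * (Y * (e - r - m)) ≤ (2 * k + 3) * (rm * D) :=
      mul_le_mul_of_nonneg_left hc.le (by linarith)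
    have h2 : 0 ≤ k * (rm * D) := by positivity
    have h3 : 0 ≤ k * (e - 1) * D :=
      mul_nonneg (mul_nonneg (by linarith) (by linarith)) hD0.le
    nlinarith

theorem Num.h2 (h : Num k D 1 Y e r rm m) :
    k * Y * D + (2 * k + 3) * (Y * (e - r - m)) - (3 * k + 3) * rm * D ≤ 2 * k * D * e := by
  have hk := h.hk
  have he := h.he
  have hY := h.hY
  have hm := h.hm
  have hZ := h.hZ
  have hq := h.hq
  have hrm := h.hrm
  have hDk := h.hDk
  have hD := h.hD
  have hY0 : 0 < Y := by linarith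
  rcases h.hc with ⟨c1, c2, _⟩ | ⟨_, c2, c3⟩
  · subst c2
    have hZ2 : e - r - m ≤ e - 2 - Y := by linarith
    have h1 : (2 * k + 3) * (Y * (e - r - m)) ≤ (2 * k + 3) * (Y * (e - 2 - Y)) :=
      mul_le_mul_of_nonneg_left (mul_le_mul_of_nonneg_left hZ2 hY0.le) (by linarith)
    have h2 : 0 ≤ 4 * e ^ 2 - 5 * (e * Y) + 5 * Y ^ 2 + 14 * Y := by
      nlinarith [sq_nonneg (8 * e - 5 * Y), sq_nonneg Y]
    have h3 : 0 ≤ (k - 2) * (2 * e ^ 2 - e * Y + Y ^ 2 + 4 * Y) :=
      mul_nonneg (by linarith) (by nlinarith [sq_nonneg (4 * e - Y), sq_nonneg Y])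
    rw [hD]
    nlinarith
  · have hr' : r = -rm := by linarith
    subst hr'
    obtain ⟨v, hv⟩ : ∃ v, v = Y - rm := ⟨_, rfl⟩
    have hv1 : 1 ≤ v := by linarith
    obtain ⟨z, hz⟩ : ∃ z, z = e - m := ⟨_, rfl⟩
    have hzle : z ≤ e - 1 - v := by linarith
    have hz1 : 1 ≤ z := by linarith
    have e1 : e - -rm - m = z + rm := by linarith
    rw [e1]
    have hev : v + 2 ≤ e := by linarith
    have hrmv : rm = Y - v := by linarith
    have h1 : Y * z ≤ Y * (e - 1 - v) := mul_le_mul_of_nonneg_left hzle hY0.le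
    have h2 : (2 * k + 3) * (Y * z) ≤ (2 * k + 3) * (Y * (e - 1 - v)) :=
      mul_le_mul_of_nonneg_left h1 (by linarith)
    have key : k * v * D + (2 * k + 3) * (e * v - Y * (1 + v)) ≤ 2 * k * D * e := by
      obtain ⟨t, ht⟩ : ∃ t, t = Y - v := ⟨_, rfl⟩
      have ht0 : 0 ≤ t := by linarith
      have hYt : Y = v + t := by linarith
      have base : 0 ≤ 4 * e ^ 2 - 5 * (e * v) + 5 * v ^ 2 + 7 * v := by
        nlinarith [sq_nonneg (8 * e - 5 * v), sq_nonneg v]
      have big : 2 * (v * D) + 7 * (e * v - Y * (1 + v)) ≤ 4 * (D * e) := by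
        rw [hD, hYt]
        nlinarith [mul_nonneg ht0 (by linarith : (0:ℤ) ≤ e), mul_nonneg ht0 (by linarith : (0:ℤ) ≤ v)]
      rcases le_or_gt (e * v - Y * (1 + v)) 0 with hn | hp
      · have a1 : (2 * k + 3) * (e * v - Y * (1 + v)) ≤ 0 :=
          mul_nonpos_of_nonneg_of_nonpos (by linarith) hn
        have a2 : 0 ≤ (k * D) * (2 * e - v) :=
          mul_nonneg (mul_nonneg (by linarith) (by linarith)) (by linarith)
        nlinarith
      · have a1 : 2 * ((2 * k + 3) * (e * v - Y * (1 + v)))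
            ≤ 7 * k * (e * v - Y * (1 + v)) := by nlinarith
        have a2 : k * (2 * (v * D) + 7 * (e * v - Y * (1 + v))) ≤ k * (4 * (D * e)) :=
          mul_le_mul_of_nonneg_left big (by linarith)
        nlinarith
    rw [hrmv]
    rw [hD] at key ⊢
    nlinarith

/-- `mm <= k` (indeed `mm <= k - 1`). -/
theorem Num.m_le (h : Num k D X Y e r rm m) : m ≤ k := by
  have hX := h.hX
  have hY := h.hY
  have hrm := h.hrm
  have hZ := h.hZ
  have hD := h.hD
  rcases h.hc with ⟨c1, c2, c3⟩ | ⟨c1, c2, c3⟩ <;> linarith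

end Pool.Agent.Helper85.LS
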